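import Mathlib

set_option autoImplicit false

namespace Pool.Agent.Results.MP_135240_an.Towers

open MeasureTheory Filter Topology Set Metric
open scoped ENNReal

/-- The Hardy-Littlewood property. -/
def HL {X : Type} [MetricSpace X] [MeasurableSpace X] (μ : Measure X) : Prop :=
  ∃ C : ℝ, 1 ≤ C ∧ ∀ g : X → ℝ, Integrable g μ → ∀ ε > 0,
    μ {x | ENNReal.ofReal ε ≤ ⨆ r > 0, ⨍⁻ y in ball x r, ‖g y‖ₑ ∂μ} ≤
      ENNReal.ofReal (C * (∫ y, |g y| ∂μ) / ε)

abbrev X := ℝ × ℝ × ℝ

lemma cover (μ : Measure X) : ∃ N : ℕ, ∀ (ν : Measure X) (t : ℝ≥0∞) (S : Set X),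
    (∀ x ∈ S, ∃ r > 0, t * μ (ball x r) ≤ ν (ball x r)) → t * μ S ≤ (N + 1) * ν univ := by
  obtain ⟨N, τ, hτ, hN⟩ := HasBesicovitchCovering.no_satelliteConfig (α := X)
  refine ⟨N, fun ν t S h => ?_⟩
  choose! r r0 hr using h
  have key : ∀ R : ℕ, t * μ (S ∩ ball 0 R) ≤ (N + 1) * ν univ := fun R => by
    by_cases h : ∃ x ∈ S ∩ ball 0 R, 2 * R < r x
    · obtain ⟨x, ⟨a, b⟩, c⟩ := h
      refine (mul_le_mul_right (measure_mono (inter_subset_right.trans (ball_subset_ball' ?_))) t).trans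
        ((hr x a).trans ((measure_mono (subset_univ _)).trans (le_mul_of_one_le_left' le_add_self)))
      linarith [mem_ball'.1 b]
    push Not at h
    obtain ⟨s, h1, h2⟩ := Besicovitch.exist_disjoint_covering_families hτ hN
      ⟨(Subtype.val : ↥(S ∩ ball 0 R) → X), fun x => r x, fun x => r0 x x.2.1, 2 * R, fun x => h x x.2⟩
    rw [Subtype.range_coe] at h2
    refine (mul_le_mul_right ((measure_mono h2).trans (measure_iUnion_fintype_le _ _)) t).trans ?_
    rw [Finset.mul_sum]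
    refine (Finset.sum_le_card_nsmul _ _ (ν univ) fun i _ => ?_).trans (by simp; gcongr; simp)
    have h3 : (s i).PairwiseDisjoint fun j => ball j.1 (r j) := (h1 i).mono fun _ => ball_subset_closedBall
    have h4 := h3.countable_of_isOpen (fun _ _ => isOpen_ball) fun j _ => nonempty_ball.2 (r0 j j.2.1)
    rw [measure_biUnion h4 h3 fun _ _ => measurableSet_ball, ← ENNReal.tsum_mul_left]
    refine (ENNReal.tsum_le_tsum fun j : s i => hr j j.1.2.1).trans ?_
    rw [← measure_biUnion h4 h3 fun _ _ => measurableSet_ball]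
    exact measure_mono (subset_univ _)
  rw [show S = ⋃ R : ℕ, S ∩ ball 0 R by rw [← inter_iUnion, iUnion_ball_nat, inter_univ], Monotone.measure_iUnion fun a b h =>
    inter_subset_inter_right _ (ball_subset_ball (by exact_mod_cast h)), ENNReal.mul_iSup]
  exact iSup_le key

lemma hl (μ : Measure X) : HL μ := by
  obtain ⟨N, h⟩ := cover μ
  refine ⟨2 * (N + 1), by linarith [N.cast_nonneg (α := ℝ)], fun g hg ε hε => ?_⟩
  have h0 : 0 < ENNReal.ofReal (ε / 2) := by simpa
  have := h (μ.withDensity fun y => ‖g y‖ₑ) (ENNReal.ofReal (ε / 2))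
    {x | ENNReal.ofReal ε ≤ ⨆ r > 0, ⨍⁻ y in ball x r, ‖g y‖ₑ ∂μ} fun x hx => by
      obtain ⟨r, h1⟩ := lt_iSup_iff.1 (((ENNReal.ofReal_lt_ofReal_iff hε).2 (half_lt_self hε)).trans_le hx)
      obtain ⟨r0, h1⟩ := lt_iSup_iff.1 h1
      rw [setLAverage_eq] at h1
      exact ⟨r, r0, by rw [withDensity_apply _ measurableSet_ball]; exact ENNReal.mul_le_of_le_div h1.le⟩
  rw [withDensity_apply _ .univ, Measure.restrict_univ, ← ofReal_integral_norm_eq_lintegral_enorm hg,
    mul_comm, ← ENNReal.le_div_iff_mul_le (.inl h0.ne') (.inl (by simp))] at this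
  refine this.trans_eq ?_
  rw [← ENNReal.ofReal_natCast, ← ENNReal.ofReal_one, ← ENNReal.ofReal_add (by simp) (by simp),
    ← ENNReal.ofReal_mul (by positivity), ← ENNReal.ofReal_div_of_pos (half_pos hε)]
  congr 1; simp only [Real.norm_eq_abs]; field_simp

def L (n : ℕ) : ℕ := 2 ^ (2 ^ n + n)

instance (n : ℕ) : NeZero (L n) := ⟨by unfold L; positivity⟩

abbrev D := Σ n, ZMod (L n)

noncomputable def a (d : D) : X :=
  ((Nat.log 2 d.2.val - d.1 : ℕ) * (1 / 2) ^ d.1, (1 / 2) ^ (d.1 + 1), d.2.val / L d.1 * (1 / 2) ^ d.1)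

def σ : D ≃ D := .sigmaCongrRight fun _ => .subRight 1

noncomputable def w (n : ℕ) : ℝ := (1 / 2) ^ (n + 2) / L n

noncomputable def c (x : ℝ) : X := (x, 0, 0)

noncomputable def μ : Measure X := (2⁻¹ : ℝ≥0∞) • (volume.restrict (Ico 0 1)).map c +
  .sum fun d : D => ENNReal.ofReal (w d.1) • .dirac (a d)

noncomputable def T : X → X := Function.extend a (a ∘ σ) id

noncomputable def f : X → ℝ :=
  Function.extend a (fun d => if d.2 = 0 then (2 / 3) ^ d.1 / w d.1 else 0) 0

lemma L0 (n : ℕ) : (0 : ℝ) < L n := by unfold L; positivity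

lemma w0 (n : ℕ) : 0 < w n := div_pos (by positivity) (L0 n)

lemma a_inj : Function.Injective a := by
  rintro ⟨n, j⟩ ⟨m, k⟩ h
  simp only [a, Prod.mk.injEq] at h
  obtain rfl : n = m := by simpa using pow_right_injective₀ (by norm_num) (by norm_num) h.2.1
  simpa [(L0 n).ne', ZMod.val_injective _ |>.eq_iff, -ZMod.natCast_val] using h.2.2

lemma c_ne (x : ℝ) : ¬ ∃ d, a d = c x := fun ⟨d, h⟩ => by simp [a, c] at h

lemma c_meas : Measurable c := by unfold c; fun_prop

lemma ext_meas {Y : Type} [MeasurableSpace Y] (g : D → Y) {e : X → Y} (he : Measurable e) :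
    Measurable (Function.extend a g e) := he.measurable_of_countable_ne ((countable_range a).mono
  fun _ hx => by_contra fun h => hx (Function.extend_apply' _ _ _ h).symm)

lemma tail (n : ℕ) : ∑' d : D, (if n ≤ d.1 then ENNReal.ofReal (w d.1) else 0) = 2⁻¹ ^ (n + 1) := by
  have : ∀ m, ∑' _ : ZMod (L m), (if n ≤ m then ENNReal.ofReal (w m) else 0) =
      if n ≤ m then 2⁻¹ ^ (m + 2) else 0 := fun m => by
    split_ifs
    · rw [tsum_fintype, Finset.sum_const, Finset.card_univ, ZMod.card, nsmul_eq_mul, ← ENNReal.ofReal_natCast,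
        ← ENNReal.ofReal_mul (by simp), w, mul_div_cancel₀ _ (L0 m).ne', ENNReal.ofReal_pow (by simp)]
      simp [ENNReal.ofReal_inv_of_pos]
    · simp
  rw [ENNReal.tsum_sigma', tsum_congr this, ← (ENNReal.summable).sum_add_tsum_nat_add' (k := n),
    Finset.sum_eq_zero fun i hi => if_neg (by simpa using hi)]
  simp only [le_add_iff_nonneg_left, zero_le, if_true, add_assoc, pow_add _ _ (n + 2), ENNReal.tsum_mul_right,
    ENNReal.tsum_geometric, ENNReal.one_sub_inv_two, inv_inv, zero_add, pow_succ' _ (n + 1), ← mul_assoc]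
  rw [ENNReal.mul_inv_cancel (by simp) (by simp), one_mul]

instance : IsProbabilityMeasure μ := ⟨by
  have := tail 0
  simp only [zero_le, if_true] at this
  simp [μ, Measure.map_apply c_meas, this, ENNReal.inv_two_add_inv_two]⟩

lemma T_pres : MeasurePreserving T μ μ := by
  have h : Measurable T := ext_meas _ measurable_id
  refine ⟨h, ?_⟩
  rw [μ, Measure.map_add _ _ h, Measure.map_smul, Measure.map_map h c_meas, Measure.map_sum h.aemeasurable,
    show T ∘ c = c from funext fun x => Function.extend_apply' _ _ _ (c_ne x),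
    ← Measure.sum_comp_equiv σ fun d : D => ENNReal.ofReal (w d.1) • .dirac (a d)]
  congr 2
  ext1 d
  simp [T, a_inj.extend_apply, σ]

lemma f0 (x : X) : 0 ≤ f x := by
  by_cases h : ∃ d, a d = x
  · obtain ⟨d, rfl⟩ := h
    have := w0 d.1
    rw [f, a_inj.extend_apply]; positivity
  · rw [f, Function.extend_apply' _ _ _ h]; rfl

lemma f_int : Integrable f μ := by
  have h : Measurable f := ext_meas _ measurable_zero
  refine integrable_add_measure.2 ⟨.smul_measure ((integrable_map_measure h.aestronglyMeasurable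
    c_meas.aemeasurable).2 ?_) (by simp), integrable_sum_dirac (by simp) ?_⟩
  · rw [show f ∘ c = 0 from funext fun x => by simp [f, Function.extend_apply' _ _ _ (c_ne x)]]
    exact integrable_zero _ _ _
  · refine (Function.Injective.summable_iff (g := fun n : ℕ => (⟨n, 0⟩ : D)) (fun _ _ h => congrArg (·.1) h)
      fun ⟨n, j⟩ h => ?_).1 ((summable_geometric_of_lt_one (r := 2 / 3) (by norm_num) (by norm_num)).congr
      fun n => ?_)
    · simp [f, a_inj.extend_apply, show j ≠ 0 from fun e => h ⟨n, by rw [e]⟩]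
    · simp [f, a_inj.extend_apply, (w0 n).le, abs_div, abs_of_pos (w0 n), mul_div_cancel₀ _ (w0 n).ne']

lemma big {x : ℝ} (hx : x ∈ Ico 0 1) (n : ℕ) : ∃ k ≥ n,
    (4 / 3) ^ n / 4 ≤ ⨍ y in ball (c x) ((1 / 2) ^ n), birkhoffAverage ℝ T f k y ∂μ := by
  set i := ⌊x * 2 ^ n⌋₊
  have h0 : (0 : ℝ) < (1 / 2) ^ n := by positivity
  have h1 : i < 2 ^ n := (Nat.floor_lt (by have := hx.1; positivity)).2 (by
    push_cast; exact mul_lt_of_lt_one_left (by positivity) hx.2)
  have h2 : 2 ^ (i + n + 1) ≤ L n := Nat.pow_le_pow_right two_pos (by omega)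
  set k := 2 ^ (i + n + 1)
  have hk : (0 : ℝ) < k := by positivity
  have h3 : Integrable (birkhoffAverage ℝ T f k) μ := (integrable_finsetSum _ fun j _ =>
    (T_pres.iterate j).integrable_comp_of_integrable f_int).smul (k : ℝ)⁻¹
  have h4 : ∀ y, 0 ≤ birkhoffAverage ℝ T f k y := fun y =>
    mul_nonneg (by positivity) (Finset.sum_nonneg fun _ _ => f0 _)
  have h5 : ∀ j ∈ Finset.Ico (2 ^ (i + n)) k, ((j : ZMod (L n))).val = j := fun j hj =>
    ZMod.val_natCast_of_lt ((Finset.mem_Ico.1 hj).2.trans_le h2)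
  have h6 : ∀ j ∈ Finset.Ico (2 ^ (i + n)) k, a ⟨n, j⟩ ∈ ball (c x) ((1 / 2) ^ n) := fun j hj => by
    have k1 := Finset.mem_Ico.1 hj
    have k2 : (2 : ℝ) ^ n * (1 / 2) ^ n = 1 := by simp
    have k3 := mul_lt_mul_of_pos_right (Nat.lt_floor_add_one (x * 2 ^ n)) h0
    have k4 := mul_le_mul_of_nonneg_right (Nat.floor_le (show 0 ≤ x * 2 ^ n by
      have := hx.1; positivity)) h0.le
    rw [mul_assoc, k2] at k3 k4
    have k5 : (j : ℝ) / L n < 1 := (div_lt_one (L0 n)).2 (by exact_mod_cast k1.2.trans_le h2)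
    simp only [mem_ball, Prod.dist_eq, a, c, h5 j hj, Nat.log_eq_of_pow_le_of_lt_pow k1.1 k1.2, Real.dist_eq,
      Nat.add_sub_cancel, sub_zero, max_lt_iff, abs_lt, pow_succ]
    have k6 : 0 ≤ (j : ℝ) / L n := by positivity
    refine ⟨⟨?_, ?_⟩, ⟨?_, ?_⟩, ?_, ?_⟩ <;> nlinarith
  have h7 : μ.real (ball (c x) ((1 / 2) ^ n)) ≤ 2 * (1 / 2) ^ n := by
    refine ENNReal.toReal_le_of_le_ofReal (by positivity) ?_
    rw [μ, Measure.add_apply, Measure.smul_apply, Measure.map_apply c_meas measurableSet_ball,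
      Measure.sum_apply _ measurableSet_ball, two_mul, ENNReal.ofReal_add h0.le h0.le]
    refine add_le_add ?_ ((ENNReal.tsum_le_tsum fun d => ?_).trans ((tail n).trans_le ?_))
    · refine (mul_le_mul_right ((Measure.restrict_le_self _).trans (measure_mono (t := ball x ((1 / 2) ^ n))
        fun y hy => (max_lt_iff.1 (show max (dist y x) _ < _ from hy)).1)) _).trans_eq ?_
      rw [Real.volume_ball, ENNReal.ofReal_mul zero_le_two, ← mul_assoc, ENNReal.ofReal_ofNat,
        ENNReal.inv_mul_cancel (by simp) (by simp), one_mul]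
    · split_ifs with h
      · exact mul_le_of_le_one_right' prob_le_one
      · rw [Measure.smul_apply, Measure.dirac_apply, indicator_of_notMem fun e => ?_, smul_zero]
        have := (max_lt_iff.1 (max_lt_iff.1 (show max (dist (a d).1 x) (max (dist (a d).2.1 0)
          (dist (a d).2.2 0)) < _ from e)).2).1
        simp only [a, Real.dist_eq, sub_zero] at this
        exact this.not_ge ((pow_le_pow_of_le_one (by norm_num) (by norm_num) (by omega)).trans (le_abs_self _))
    · rw [ENNReal.ofReal_pow (by simp), pow_succ]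
      simpa [ENNReal.ofReal_inv_of_pos] using mul_le_of_le_one_right' (ENNReal.inv_le_one.2 one_le_two)
  have h8 : ∀ d, w d.1 ≤ μ.real {a d} := fun d => (ENNReal.ofReal_le_iff_le_toReal (measure_ne_top _ _)).1
    (le_add_left (le_trans (by simp) (Measure.le_sum _ d _)))
  have h9 : (2 / 3) ^ n / 2 ≤ ∫ y in ball (c x) ((1 / 2) ^ n), birkhoffAverage ℝ T f k y ∂μ := by
    refine le_trans ?_ (setIntegral_mono_set (s := (Finset.Ico (2 ^ (i + n)) k).image fun j : ℕ => a ⟨n, j⟩)
      h3.integrableOn (.of_forall h4) (LE.le.eventuallyLE fun y hy => by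
        obtain ⟨j, hj, rfl⟩ := Finset.mem_image.1 hy; exact h6 j hj))
    rw [setIntegral_finset _ h3.integrableOn, Finset.sum_image fun j hj l hl e => by
      rw [← h5 j hj, ← h5 l hl, eq_of_heq (Sigma.mk.inj (a_inj e)).2]]
    refine le_trans ?_ (Finset.card_nsmul_le_sum _ _ ((2 / 3) ^ n / k : ℝ) fun j hj => ?_)
    · rw [Nat.card_Ico, show k - 2 ^ (i + n) = 2 ^ (i + n) by simp only [k, pow_succ]; omega, nsmul_eq_mul]
      simp only [k]; push_cast; field_simp; ring_nf; rfl
    · have k1 : T^[j] (a ⟨n, j⟩) = a ⟨n, 0⟩ := by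
        have : ∀ (m : ℕ) z, T^[m] (a ⟨n, z⟩) = a ⟨n, z - m⟩ := fun m => by
          induction m with
          | zero => simp
          | succ m ih => 
            intro z
            rw [Function.iterate_succ_apply, show T (a ⟨n, z⟩) = a ⟨n, z - 1⟩ from a_inj.extend_apply _ _ _, ih]
            simp [sub_sub, add_comm]
        simp [this]
      have k2 := Finset.single_le_sum (f := fun m => f (T^[m] (a ⟨n, j⟩))) (fun _ _ => f0 _)
        (Finset.mem_range.2 (Finset.mem_Ico.1 hj).2)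
      rw [k1, f, a_inj.extend_apply, if_pos rfl] at k2
      refine le_trans (le_of_eq ?_) (mul_le_mul (h8 ⟨n, j⟩) (mul_le_mul_of_nonneg_left k2 (inv_pos.2 hk).le)
        (by have := w0 n; positivity) measureReal_nonneg)
      have := w0 n
      field_simp
  refine ⟨k, (by omega : n ≤ i + n + 1).trans Nat.lt_two_pow_self.le, ?_⟩
  have h10 := (w0 n).trans_le ((h8 ⟨n, (2 ^ (i + n) : ℕ)⟩).trans (measureReal_mono (singleton_subset_iff.2
    (h6 _ (Finset.mem_Ico.2 ⟨le_rfl, Nat.pow_lt_pow_right one_lt_two (by omega)⟩)))))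
  rw [setAverage_eq, smul_eq_mul, le_inv_mul_iff₀ h10]
  refine (mul_le_mul_of_nonneg_right h7 (by positivity)).trans (le_trans (le_of_eq ?_) h9)
  rw [show (2 / 3 : ℝ) = 1 / 2 * (4 / 3) by norm_num, mul_pow]; ring

theorem result : ∃ (X : Type) (_ : MetricSpace X) (_ : MeasurableSpace X) (_ : BorelSpace X)
    (μ : Measure X) (_ : IsProbabilityMeasure μ) (T : X → X) (f : X → ℝ),
    HL μ ∧ MeasurePreserving T μ μ ∧ Integrable f μ ∧
    ¬ ∀ᵐ x ∂μ, ∀ ε > 0, ∃ δ > 0, ∃ K : ℕ, ∀ r, 0 < r → r < δ → ∀ k ≥ K,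
      |⨍ y in ball x r, birkhoffAverage ℝ T f k y ∂μ - μ[f | MeasurableSpace.invariants T] x| < ε := by
  refine ⟨X, inferInstance, inferInstance, inferInstance, μ, inferInstance, T, f, hl μ, T_pres, f_int,
    fun h => ?_⟩
  generalize μ[f | MeasurableSpace.invariants T] = g at h
  have h1 := ae_of_ae_map c_meas.aemeasurable ((Measure.ae_ennreal_smul_measure_iff (by simp)).1
    (ae_add_measure_iff.1 h).1)
  obtain ⟨x, hx, h2⟩ := Measure.exists_mem_of_measure_ne_zero_of_ae (by simp) h1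
  obtain ⟨δ, hδ, K, h3⟩ := h2 1 one_pos
  obtain ⟨n, k1, k2, k3⟩ := ((eventually_ge_atTop K).and (((tendsto_pow_atTop_nhds_zero_of_lt_one
    (r := (1 / 2 : ℝ)) (by norm_num) (by norm_num)).eventually (gt_mem_nhds hδ)).and
    ((tendsto_pow_atTop_atTop_of_one_lt (r := (4 / 3 : ℝ)) (by norm_num)).eventually_ge_atTop
      (4 * (g (c x) + 1))))).exists
  obtain ⟨k, k4, k5⟩ := big hx n
  linarith [(abs_lt.1 (h3 _ (by positivity) k2 k (k1.trans k4))).2]

end Pool.Agent.Results.MP_135240_an.Towers
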